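import Pool.Agent.Helper92.W.St

/-!
# Density of the deficient levels along most paths (from the law of large numbers)
-/

set_option autoImplicit false

namespace Pool.Agent.Helper92.W

open Finset Pool.Agent.Helper69.RK Pool.Agent.Helper61.GL Pool.Agent.Helper46.WF

/-- telescoping sums with step `R` -/
theorem den_tele (g : ℕ → ℝ) (R a : ℕ) : ∀ b, a ≤ b →
    ∑ l ∈ Ico a b, (g (l + R) - g l) = ∑ i ∈ range R, (g (b + i) - g (a + i)) := by
  intro b hab
  induction b, hab using Nat.le_induction with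
  | base => simp
  | succ b hab ih =>
    rw [Finset.sum_Ico_succ_top hab, ih]
    have h1 : ∀ m : ℕ, ∑ i ∈ range m, (g (b + 1 + i) - g (a + i)) =
        ∑ i ∈ range m, (g (b + i) - g (a + i)) + (g (b + m) - g b) := by
      intro m
      induction m with
      | zero => simp
      | succ m ih2 =>
        rw [Finset.sum_range_succ, Finset.sum_range_succ, ih2]
        have e1 : b + 1 + m = b + (m + 1) := by omega
        rw [e1]
        ring
    rw [h1 R]

/-- one interval of the grid -/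
theorem den_int (c : ℝ) (hc : 0 < c) (_ : c ≤ 1) (R : ℕ) (hR : 1 ≤ R) (x : ℝ) (hx : 0 ≤ x)
    (g h : ℕ → ℝ) (a b : ℕ) (hab : a ≤ b) (h0 : ∀ l, 0 ≤ h l)
    (hg : ∀ i, i < R → g (b + i) - g (a + i) ≤ (1 - c) * ((b : ℝ) - a) + x)
    (y : ℝ) (hL : |∑ l ∈ Ico a b, (g (l + R) - g l - h l)| ≤ y) :
    c / 2 * ((b : ℝ) - a) - 2 * (x + y) ≤
      (((Ico a b).filter (fun l => c * R / 2 ≤ R - h l)).card : ℝ) := by
  have hR' : (1 : ℝ) ≤ R := by exact_mod_cast hR
  have hy : 0 ≤ y := le_trans (abs_nonneg _) hL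
  have hba : (0 : ℝ) ≤ (b : ℝ) - a := by
    have : (a : ℝ) ≤ b := by exact_mod_cast hab
    linarith
  have h1 : ∑ l ∈ Ico a b, h l ≤ R * ((1 - c) * ((b : ℝ) - a) + x) + y := by
    have e1 : ∑ l ∈ Ico a b, (g (l + R) - g l - h l) =
        ∑ i ∈ range R, (g (b + i) - g (a + i)) - ∑ l ∈ Ico a b, h l := by
      rw [Finset.sum_sub_distrib, den_tele g R a b hab]
    rw [e1] at hL
    have h2 : ∑ i ∈ range R, (g (b + i) - g (a + i)) ≤ R * ((1 - c) * ((b : ℝ) - a) + x) := by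
      refine le_trans (Finset.sum_le_sum (fun i hi => hg i (Finset.mem_range.mp hi))) ?_
      rw [Finset.sum_const, card_range, nsmul_eq_mul]
    have h3 := (abs_le.mp hL).1
    linarith
  set G := (Ico a b).filter (fun l => c * R / 2 ≤ R - h l) with hG
  set B := (Ico a b).filter (fun l => ¬ (c * R / 2 ≤ R - h l)) with hB
  have hcard : (G.card : ℝ) + B.card = (b : ℝ) - a := by
    have e := Finset.card_filter_add_card_filter_not (s := Ico a b) (fun l => c * (R : ℝ) / 2 ≤ R - h l)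
    rw [Nat.card_Ico] at e
    have e2 : ((G.card + B.card : ℕ) : ℝ) = ((b - a : ℕ) : ℝ) := by
      rw [hG, hB, e]
    rw [Nat.cast_sub hab] at e2
    push_cast at e2
    exact e2
  have h4 : (B.card : ℝ) * (R * (1 - c / 2)) ≤ ∑ l ∈ Ico a b, h l := by
    refine le_trans ?_ (Finset.sum_le_sum_of_subset_of_nonneg (Finset.filter_subset _ _)
      (fun l _ _ => h0 l) : ∑ l ∈ B, h l ≤ _)
    rw [← nsmul_eq_mul, ← Finset.sum_const]
    refine Finset.sum_le_sum fun l hl => ?_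
    rw [hB, Finset.mem_filter] at hl
    have := hl.2
    push Not at this
    nlinarith
  have h5 : (B.card : ℝ) * (1 - c / 2) ≤ (1 - c) * ((b : ℝ) - a) + x + y := by
    have h6 : R * ((B.card : ℝ) * (1 - c / 2)) ≤ R * ((1 - c) * ((b : ℝ) - a) + x + y) := by
      nlinarith
    exact le_of_mul_le_mul_left h6 (by linarith)
  have hB0 : (0 : ℝ) ≤ B.card := Nat.cast_nonneg _
  have hG0 : (0 : ℝ) ≤ G.card := Nat.cast_nonneg _
  -- `G = L - B`
  have h7 : c / 2 * ((b : ℝ) - a) - (x + y) ≤ (G.card : ℝ) * (1 - c / 2) := by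
    have : (G.card : ℝ) = (b : ℝ) - a - B.card := by linarith
    rw [this]
    nlinarith
  have h8 : (G.card : ℝ) * (1 - c / 2) ≤ G.card := by nlinarith
  linarith

/-- a path: grid of step `q`, prefix sums -/
theorem den_path (c : ℝ) (hc : 0 < c) (hc1 : c ≤ 1) (ε : ℝ) (_ : 0 < ε) (R : ℕ) (hR : 1 ≤ R) (n q : ℕ)
    (hq : 1 ≤ q) (hq2 : (q : ℝ) ≤ ε / 16 * n) (hn : 16 * (R : ℝ) ≤ ε * n)
    (η δ : ℝ) (hη : 0 ≤ η) (hη2 : η ≤ c * ε / 64) (hδ2 : δ ≤ c * ε / 128)
    (g h : ℕ → ℝ) (h0 : ∀ l, 0 ≤ h l)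
    (hg : ∀ a b : ℕ, a ≤ b → b ≤ n → g b - g a ≤ (1 - c) * ((b : ℝ) - a) + η * n)
    (hL : ∀ j : ℕ, j * q ≤ n → |∑ l ∈ range (j * q), (g (l + R) - g l - h l)| ≤ δ * n)
    (a b : ℕ) (hb : b ≤ n) (hab : (a : ℝ) + ε * n ≤ b) :
    c / 4 * ((b : ℝ) - a) ≤
      (((Ico a b).filter (fun t => R ≤ t ∧ c * R / 2 ≤ R - h (t - R))).card : ℝ) := by
  have hR' : (1 : ℝ) ≤ R := by exact_mod_cast hR
  have hbR : R ≤ b := by
    have : (R : ℝ) ≤ b := by
      have : (0 : ℝ) ≤ a := Nat.cast_nonneg _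
      linarith
    exact_mod_cast this
  -- end points
  obtain ⟨j, hj1, hj2⟩ : ∃ j : ℕ, a ≤ R + j * q ∧ R + j * q ≤ a + R + q := by
    refine ⟨(a + q - 1) / q, ?_, ?_⟩
    · have h1 := Nat.div_add_mod (a + q - 1) q
      have h2 := Nat.mod_lt (a + q - 1) (show q > 0 by omega)
      have h3 : q * ((a + q - 1) / q) = ((a + q - 1) / q) * q := Nat.mul_comm _ _
      omega
    · have h1 := Nat.div_mul_le_self (a + q - 1) q
      omega
  obtain ⟨k, hk1, hk2⟩ : ∃ k : ℕ, R + k * q ≤ b ∧ b ≤ R + k * q + q := by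
    refine ⟨(b - R) / q, ?_, ?_⟩
    · have h1 := Nat.div_mul_le_self (b - R) q
      omega
    · have h1 := Nat.div_add_mod (b - R) q
      have h2 := Nat.mod_lt (b - R) (show q > 0 by omega)
      have h3 : q * ((b - R) / q) = ((b - R) / q) * q := Nat.mul_comm _ _
      omega
  have hj2' : (R : ℝ) + ((j * q : ℕ) : ℝ) ≤ a + R + q := by exact_mod_cast hj2
  have hk2' : (b : ℝ) ≤ R + ((k * q : ℕ) : ℝ) + q := by exact_mod_cast hk2
  have hjk : j * q ≤ k * q := by
    have : ((j * q : ℕ) : ℝ) ≤ ((k * q : ℕ) : ℝ) := by nlinarith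
    exact_mod_cast this
  have hkn : k * q ≤ n := by omega
  have hn0 : (0 : ℝ) ≤ n := Nat.cast_nonneg _
  have h1 := den_int c hc hc1 R hR (η * n) (by positivity) g h (j * q) (k * q) hjk h0
    (by
      intro i hi
      have := hg (j * q + i) (k * q + i) (by omega) (by omega)
      refine this.trans (le_of_eq ?_)
      push_cast
      ring)
    (2 * δ * n)
    (by
      have e1 := Finset.sum_range_add_sum_Ico (fun l => g (l + R) - g l - h l) hjk
      have e2 : ∑ l ∈ Ico (j * q) (k * q), (g (l + R) - g l - h l) =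
          ∑ l ∈ range (k * q), (g (l + R) - g l - h l) - ∑ l ∈ range (j * q), (g (l + R) - g l - h l) := by
        linarith
      rw [e2]
      refine (abs_sub _ _).trans ?_
      have := hL j (hjk.trans hkn)
      have := hL k hkn
      linarith)
  have h2 : ((Ico (j * q) (k * q)).filter (fun l => c * (R : ℝ) / 2 ≤ R - h l)).card ≤
      ((Ico a b).filter (fun t => R ≤ t ∧ c * (R : ℝ) / 2 ≤ R - h (t - R))).card := by
    apply Finset.card_le_card_of_injOn (fun l => l + R)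
    · intro l hl
      rw [Finset.mem_coe, Finset.mem_filter, Finset.mem_Ico] at hl
      rw [Finset.mem_coe, Finset.mem_filter, Finset.mem_Ico]
      refine ⟨⟨?_, ?_⟩, ?_, ?_⟩
      · show a ≤ l + R
        omega
      · show l + R < b
        omega
      · show R ≤ l + R
        omega
      · show c * (R : ℝ) / 2 ≤ R - h (l + R - R)
        rw [Nat.add_sub_cancel]
        exact hl.2
    · intro l _ l' _ hll
      have : l + R = l' + R := hll
      omega
  have h3 : (((Ico (j * q) (k * q)).filter (fun l => c * (R : ℝ) / 2 ≤ R - h l)).card : ℝ) ≤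
      (((Ico a b).filter (fun t => R ≤ t ∧ c * (R : ℝ) / 2 ≤ R - h (t - R))).card : ℝ) := by
    exact_mod_cast h2
  refine le_trans ?_ (h1.trans h3)
  have h4 : (b : ℝ) - a - R - 2 * q ≤ ((k * q : ℕ) : ℝ) - ((j * q : ℕ) : ℝ) := by linarith
  have h5 : c / 2 * ((b : ℝ) - a - R - 2 * q) ≤ c / 2 * (((k * q : ℕ) : ℝ) - ((j * q : ℕ) : ℝ)) :=
    mul_le_mul_of_nonneg_left h4 (by linarith)
  have h6 : c * (R + 2 * q) / 2 ≤ c * ε * n * (3 / 32) := by nlinarith
  have h7 : η * n ≤ c * ε / 64 * n := mul_le_mul_of_nonneg_right hη2 hn0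
  have h8 : δ * n ≤ c * ε / 128 * n := mul_le_mul_of_nonneg_right hδ2 hn0
  have h9 : c * (ε * n) ≤ c * ((b : ℝ) - a) := mul_le_mul_of_nonneg_left (by linarith) hc.le
  nlinarith

theorem den_fl (l r : ℕ) (x : ℝ) : fl l x = fl (l + r) x / 2 ^ r := by
  unfold fl
  have h := Int.natCast_mul_floor_div_cancel (n := 2 ^ r) (by positivity) ((2 : ℝ) ^ l * x)
  rw [← h]
  push_cast
  have e : (2 : ℝ) ^ r * ((2 : ℝ) ^ l * x) = (2 : ℝ) ^ (l + r) * x := by
    rw [pow_add]
    ring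
  rw [e]

theorem den_fl_of (l r : ℕ) (x y : ℝ) (h : fl (l + r) x = fl (l + r) y) : fl l x = fl l y := by
  rw [den_fl l r x, den_fl l r y, h]

theorem den_card {Ω : Type} [Fintype Ω] (z : Ω → ℝ) (l R : ℕ) (ω : Ω) (i1 : DecidableEq ℤ)
    (i2 : DecidablePred (fun ω' => fl l (z ω') = fl l (z ω))) :
    (@Finset.image Ω ℤ i1 (fun ω' => fl (l + R) (z ω'))
      (@Finset.filter Ω (fun ω' => fl l (z ω') = fl l (z ω)) i2 univ)).card ≤ 2 ^ R := by
  have h1 : (@Finset.image Ω ℤ i1 (fun ω' => fl (l + R) (z ω'))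
      (@Finset.filter Ω (fun ω' => fl l (z ω') = fl l (z ω)) i2 univ)) ⊆
      Ico (2 ^ R * fl l (z ω)) (2 ^ R * (fl l (z ω) + 1)) := by
    intro m hm
    rw [Finset.mem_image] at hm
    obtain ⟨ω', h2, h3⟩ := hm
    rw [Finset.mem_filter] at h2
    have h4 := h2.2
    rw [den_fl l R (z ω'), h3] at h4
    rw [Finset.mem_Ico, ← h4]
    have hp : (0 : ℤ) < 2 ^ R := by positivity
    have e1 := Int.emod_add_mul_ediv m (2 ^ R)
    have e2 := Int.emod_nonneg m hp.ne'
    have e3 := Int.emod_lt_of_pos m hp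
    constructor
    · linarith
    · linarith
  refine (Finset.card_le_card h1).trans ?_
  rw [Int.card_Ico]
  have : 2 ^ R * (fl l (z ω) + 1) - 2 ^ R * fl l (z ω) = 2 ^ R := by ring
  rw [this]
  exact le_of_eq (by norm_cast)

theorem den_srp {Ω : Type} [Fintype Ω] (μ : Ω → ℝ) (z : Ω → ℝ) (l r : ℕ) (ω : Ω) :
    srp μ (fun ω' => fl (l + r) (z ω')) (fun ω' => fl l (z ω')) ω =
      - Real.logb 2 (pr μ (fun ω' => fl (l + r) (z ω')) ω) - (- Real.logb 2 (pr μ (fun ω' => fl l (z ω')) ω)) := by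
  unfold srp
  have h : pr μ (fun ω' => (fl (l + r) (z ω'), fl l (z ω'))) ω = pr μ (fun ω' => fl (l + r) (z ω')) ω := by
    refine e1_pr_congr μ _ _ ω fun ω' _ => ?_
    constructor
    · intro h
      exact (Prod.ext_iff.mp h).1
    · intro h
      exact Prod.ext h (den_fl_of l r _ _ h)
  rw [h]
  ring

theorem den_LH_nonneg {Ω α γ : Type} [Fintype Ω] (μ : Ω → ℝ) (hμ : ∀ ω, 0 ≤ μ ω) (F : Ω → α) (G : Ω → γ)
    (ω : Ω) : 0 ≤ LH μ F G ω := by
  unfold LH
  refine Finset.sum_nonneg fun ω' _ => ?_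
  by_cases h0 : cw μ G ω ω' = 0
  · rw [h0, zero_mul]
  · have h1 := (cw_ne_zero μ G h0).2
    refine mul_nonneg (cw_nonneg μ G hμ ω ω') (sub_nonneg.2 ?_)
    refine Real.logb_le_logb_of_le (by norm_num) (e1_pr_pos μ _ hμ ω' h1) ?_
    exact e1_pr_mono μ _ _ hμ ω' (fun ω'' _ h => (Prod.ext_iff.1 h).2)

/-- union bound over `range J` -/
theorem den_union {Ω : Type} [Fintype Ω] (μ : Ω → ℝ) (hμ : ∀ ω, 0 ≤ μ ω) (A : Ω → Prop) (E : ℕ → Ω → Prop)
    (J : ℕ) (x y : ℝ) (hA : Pw μ A ≤ x) (hE : ∀ j, j < J → Pw μ (E j) ≤ y) :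
    Pw μ (fun ω => A ω ∨ ∃ j, j < J ∧ E j ω) ≤ x + J * y := by
  induction J with
  | zero =>
    refine le_trans (Pw_mono μ hμ (B := A) ?_) ?_
    · intro ω _ h
      rcases h with h | ⟨j, hj, _⟩
      · exact h
      · omega
    · simpa using hA
  | succ J ih =>
    have h1 := ih (fun j hj => hE j (by omega))
    have h2 := hE J (by omega)
    have h3 := Pw_or μ hμ (fun ω => A ω ∨ ∃ j, j < J ∧ E j ω) (E J)
    refine le_trans (Pw_mono μ hμ (B := fun ω => (A ω ∨ ∃ j, j < J ∧ E j ω) ∨ E J ω) ?_) ?_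
    · intro ω _ h
      rcases h with h | ⟨j, hj, h⟩
      · exact Or.inl (Or.inl h)
      · rcases Nat.lt_succ_iff_lt_or_eq.mp hj with h4 | h4
        · exact Or.inl (Or.inr ⟨j, h4, h⟩)
        · subst h4
          exact Or.inr h
    · push_cast
      linarith

theorem st_DEN : ST_LLN → ST_DEN := by
  classical
  intro hLLN c ε hc hc1 hε R hR
  obtain ⟨C, hC⟩ := hLLN R R hR
  set δ : ℝ := c * ε / 128 with hδ
  have hδ0 : 0 < δ := by positivity
  set η : ℝ := min (c * ε / 64) (ε / 2) with hη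
  have hη0 : 0 < η := by
    rw [hη]
    exact lt_min (by positivity) (by positivity)
  -- number of grid points
  obtain ⟨J, hJ⟩ : ∃ J : ℕ, 32 / ε + 1 < J := exists_nat_gt _
  obtain ⟨n1, hn1⟩ : ∃ n1 : ℕ, 16 * (R : ℝ) / ε + 32 / ε + 4 * J * |C| / (δ ^ 2 * ε) + 1 < n1 :=
    exists_nat_gt _
  refine ⟨η, hη0, n1, ?_⟩
  intro n hn Ω _ μ z hμ hm hz hU
  have hn' : (n1 : ℝ) ≤ n := by exact_mod_cast hn
  have hA0 : 0 ≤ 16 * (R : ℝ) / ε := by positivity
  have hB0 : 0 ≤ 32 / ε := by positivity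
  have hC0 : 0 ≤ 4 * J * |C| / (δ ^ 2 * ε) := by positivity
  have hn1' : (1 : ℝ) ≤ n := by linarith
  have hn0 : (0 : ℝ) < n := by linarith
  have hRn : 16 * (R : ℝ) ≤ ε * n := by
    have : 16 * (R : ℝ) / ε ≤ n := by linarith
    rw [div_le_iff₀ hε] at this
    linarith
  have h32 : 32 ≤ ε * n := by
    have : 32 / ε ≤ n := by linarith
    rw [div_le_iff₀ hε] at this
    linarith
  -- the step of the grid
  set q : ℕ := ⌊ε / 16 * n⌋₊ with hq
  have hq1 : (q : ℝ) ≤ ε / 16 * n := Nat.floor_le (by positivity)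
  have hq2 : ε / 16 * n < q + 1 := Nat.lt_floor_add_one _
  have hq3 : 1 ≤ q := by
    have : (1 : ℝ) < (q : ℝ) + 1 := by linarith
    have : (0 : ℝ) < q := by linarith
    exact_mod_cast this
  have hq4 : ε / 32 * n ≤ q := by linarith
  have hjJ : ∀ j : ℕ, j * q ≤ n → j < J := by
    intro j hj
    have h1 : (j : ℝ) * q ≤ n := by exact_mod_cast hj
    have h2 : (j : ℝ) * (ε / 32 * n) ≤ n := by
      have := mul_le_mul_of_nonneg_left hq4 (Nat.cast_nonneg j : (0 : ℝ) ≤ (j : ℝ))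
      linarith
    have h3 : (j : ℝ) * (ε / 32) ≤ 1 := by
      have : (j : ℝ) * (ε / 32) * n ≤ 1 * n := by linarith
      exact le_of_mul_le_mul_right this hn0
    have h4 : (j : ℝ) ≤ 32 / ε := by
      rw [le_div_iff₀ hε]
      linarith
    have h5 : (j : ℝ) < J := by linarith
    exact_mod_cast h5
  set g : Ω → ℕ → ℝ := fun ω l => - Real.logb 2 (pr μ (fun ω' => fl l (z ω')) ω) with hg
  set h : Ω → ℕ → ℝ := fun ω l => LH μ (fun ω' => fl (l + R) (z ω')) (fun ω' => fl l (z ω')) ω with hh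
  -- law of large numbers for prefix sums
  set E : ℕ → Ω → Prop := fun j ω => j * q ≤ n ∧
    (δ * n) ^ 2 < (∑ l ∈ range (j * q), (g ω (l + R) - g ω l - h ω l)) ^ 2 with hEdef
  have hE : ∀ j, j < J → Pw μ (E j) ≤ ε / (2 * J) := by
    intro j hj
    by_cases hjq : j * q ≤ n
    swap
    · have : Pw μ (E j) ≤ 0 := by
        unfold Pw
        refine le_of_eq (Finset.sum_eq_zero fun ω _ => ?_)
        rw [if_neg]
        intro h1
        exact hjq h1.1
      have h2 : 0 ≤ ε / (2 * (J : ℝ)) := by positivity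
      linarith
    have h1 := hC Ω ℤ μ (fun l ω => fl l (z ω)) hμ hm (fun l ω ω' e => den_fl_of l 1 _ _ e)
      (fun l ω => den_card z l R ω _ _) n (range (j * q)) (Finset.range_subset_range.mpr hjq)
    have h2 : ∑ ω, μ ω * (∑ l ∈ range (j * q), (g ω (l + R) - g ω l - h ω l)) ^ 2 ≤ C * (n + 1) := by
      refine le_trans (le_of_eq ?_) h1
      refine Finset.sum_congr rfl fun ω _ => ?_
      congr 2
      refine Finset.sum_congr rfl fun l _ => ?_
      rw [den_srp μ z l R ω]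
    have h3 := Pw_markov μ hμ (fun ω => (∑ l ∈ range (j * q), (g ω (l + R) - g ω l - h ω l)) ^ 2)
      (fun ω _ => sq_nonneg _) (t := (δ * n) ^ 2) (by positivity) h2
    have h4 : Pw μ (E j) ≤ C * (n + 1) / (δ * n) ^ 2 := by
      refine le_trans (Pw_mono μ hμ ?_) h3
      intro ω _ h5
      exact h5.2
    refine h4.trans ?_
    have hJ0 : (0 : ℝ) < J := by linarith
    rw [div_le_div_iff₀ (by positivity) (by positivity)]
    have h5 : C * (n + 1) ≤ |C| * (2 * n) :=
      mul_le_mul (le_abs_self C) (by linarith) (by linarith) (abs_nonneg C)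
    have h6 : 4 * J * |C| ≤ δ ^ 2 * ε * n := by
      have : 4 * J * |C| / (δ ^ 2 * ε) ≤ n := by linarith
      rw [div_le_iff₀ (by positivity)] at this
      linarith
    calc C * (n + 1) * (2 * J) ≤ |C| * (2 * n) * (2 * J) := mul_le_mul_of_nonneg_right h5 (by positivity)
      _ = (4 * J * |C|) * n := by ring
      _ ≤ (δ ^ 2 * ε * n) * n := mul_le_mul_of_nonneg_right h6 hn0.le
      _ = ε * (δ * n) ^ 2 := by ring
  have hP := den_union μ hμ _ E J η (ε / (2 * J)) hU hE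
  have hJ0 : (0 : ℝ) < J := by linarith
  have e1 : (J : ℝ) * (ε / (2 * J)) = ε / 2 := by
    field_simp
  rw [e1] at hP
  have hη3 : η ≤ ε / 2 := min_le_right _ _
  refine le_trans (Pw_mono μ hμ ?_) (hP.trans (by linarith))
  intro ω _ hω
  by_contra hcon
  push Not at hcon
  obtain ⟨hc1', hc2'⟩ := hcon
  obtain ⟨a, b, hb, hab, hcard⟩ := hω
  have h1 := den_path c hc hc1 ε hε R hR n q hq3 hq1 hRn η δ hη0.le (min_le_left _ _) le_rfl (g ω) (h ω)
    (fun l => den_LH_nonneg μ hμ _ _ ω)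
    (by
      intro a b hab hb
      have h2 := hc1' a b hab hb
      obtain ⟨r, rfl⟩ := Nat.exists_eq_add_of_le hab
      rw [den_srp μ z a r ω] at h2
      exact h2)
    (by
      intro j hj
      by_contra h3
      push Not at h3
      have h4 := hc2' j (hjJ j hj)
      apply h4
      refine ⟨hj, ?_⟩
      have h5 : 0 ≤ δ * n := by positivity
      rw [← sq_abs (∑ l ∈ range (j * q), (g ω (l + R) - g ω l - h ω l))]
      exact pow_lt_pow_left₀ h3 h5 (by norm_num))
    a b hb hab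
  have h2 : ((Ico a b).filter (fun t => R ≤ t ∧ c * (R : ℝ) / 2 ≤ R - h ω (t - R))) =
      ((Ico a b).filter (fun t => DL μ z c R t ω)) := by
    apply Finset.filter_congr
    intro t _
    unfold DL de
    constructor
    · rintro ⟨h3, h4⟩
      refine ⟨h3, ?_⟩
      rw [hh] at h4
      simp only [Nat.sub_add_cancel h3] at h4
      exact h4
    · rintro ⟨h3, h4⟩
      refine ⟨h3, ?_⟩
      rw [hh]
      simp only [Nat.sub_add_cancel h3]
      exact h4
  rw [h2] at h1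
  linarith

end Pool.Agent.Helper92.W
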